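import Pool.Agent.V5helper90.ZL.StmA

/-!
# The zero-one law for all K3 surfaces: job DT, the determinant of a projector
-/

set_option autoImplicit false

namespace Pool.Agent.V5helper58.ZL

open Matrix Pool.Agent.V5helper90.ZL

/-- The Cauchy–Binet type expansion of a minor of a product. -/
lemma det_mul_submatrix {κ ι : Type} [Fintype ι] [DecidableEq ι] {s : ℕ}
    (G : Matrix κ ι ℂ) (B : Matrix ι (Fin s) ℂ) (i : Fin s → κ) :
    ∑ w : Fin s → ι, (∏ x, G (i x) (w x)) * (B.submatrix w id).det =
      ((G * B).submatrix i id).det := by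
  have h2 : (G * B).submatrix i id =
      Matrix.of fun a : Fin s => ∑ w, G (i a) w • B w := by
    ext a c
    rw [Matrix.submatrix_apply, Matrix.mul_apply, Matrix.of_apply, Finset.sum_apply]
    rfl
  have h3 : (Matrix.of fun a : Fin s => ∑ w, G (i a) w • B w).det =
      (Matrix.detRowAlternating (R := ℂ) (n := Fin s)).toMultilinearMap
        (fun a => ∑ w, G (i a) w • B w) := rfl
  rw [h2, h3, MultilinearMap.map_sum]
  refine Finset.sum_congr rfl fun w _ => ?_
  rw [MultilinearMap.map_smul_univ, smul_eq_mul]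
  rfl

/-- An idempotent matrix is a product `B * L` with `L * B = 1`. -/
lemma exists_factor {ι : Type} [Fintype ι] [DecidableEq ι] (P : Matrix ι ι ℂ) (hP : P * P = P) :
    ∃ (s : ℕ) (B : Matrix ι (Fin s) ℂ) (L : Matrix (Fin s) ι ℂ), P = B * L ∧ L * B = 1 := by
  let M : Submodule ℂ (ι → ℂ) := LinearMap.range P.mulVecLin
  let b := Module.finBasis ℂ M
  have hmem : ∀ v : ι → ℂ, P *ᵥ v ∈ M := fun v => ⟨v, rfl⟩
  have hfix : ∀ v ∈ M, P *ᵥ v = v := by
    rintro v ⟨w, rfl⟩
    rw [Matrix.mulVecLin_apply, Matrix.mulVec_mulVec, hP]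
  refine ⟨Module.finrank ℂ M, Matrix.of fun j c => (b c : ι → ℂ) j,
    Matrix.of fun c j => b.repr ⟨P *ᵥ Pi.single j 1, hmem _⟩ c, ?_, ?_⟩
  · ext i j
    rw [Matrix.mul_apply]
    have h1 := b.sum_repr ⟨P *ᵥ Pi.single j 1, hmem _⟩
    have h2 := congrFun (congrArg Subtype.val h1) i
    simp only [Submodule.coe_sum, Submodule.coe_smul, Finset.sum_apply, Pi.smul_apply,
      smul_eq_mul] at h2
    have h3 : (P *ᵥ Pi.single j 1) i = P i j := by
      rw [Matrix.mulVec_single_one, Matrix.col_apply]
    rw [← h3, ← h2]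
    refine Finset.sum_congr rfl fun c _ => ?_
    rw [Matrix.of_apply, Matrix.of_apply, mul_comm]
  · ext c d
    rw [Matrix.mul_apply]
    have h1 : (b d : M) = ∑ j, (b d : ι → ℂ) j • (⟨P *ᵥ Pi.single j 1, hmem _⟩ : M) := by
      apply Subtype.ext
      rw [Submodule.coe_sum]
      simp only [Submodule.coe_smul]
      conv_lhs => rw [← hfix (b d) (b d).2]
      funext i
      rw [Matrix.mulVec, dotProduct, Finset.sum_apply]
      refine Finset.sum_congr rfl fun j _ => ?_
      rw [Pi.smul_apply, Matrix.mulVec_single_one, Matrix.col_apply, smul_eq_mul, mul_comm]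
    have h2 := congrArg (fun v => b.repr v c) h1
    simp only [map_sum, map_smul, Finsupp.coe_finsetSum, Finset.sum_apply, Finsupp.smul_apply,
      smul_eq_mul, Module.Basis.repr_self] at h2
    rw [Finsupp.single_apply] at h2
    rw [Matrix.one_apply]
    simp only [Matrix.of_apply]
    simp only [eq_comm (a := c)]
    rw [h2]
    refine Finset.sum_congr rfl fun j _ => mul_comm _ _

theorem t_DT : S_DT := by
  intro ι _ _ P τ hP hτ
  obtain ⟨s, B, L, hBL, hLB⟩ := exists_factor P hP
  have hPB : P * B = B := by rw [hBL, Matrix.mul_assoc, hLB, Matrix.mul_one]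
  have hB0 : ∀ i, ¬ τ i → ∀ c, B i c = 0 := by
    intro i hi c
    rw [← hPB, Matrix.mul_apply]
    exact Finset.sum_eq_zero fun j _ => by rw [hτ i hi j, zero_mul]
  have hsum : ∑ w : Fin s → ι, (∏ x, L x (w x)) * (B.submatrix w id).det = 1 := by
    have h := det_mul_submatrix L B id
    simpa [hLB] using h
  have hD0 : ∃ i : Fin s → ι, (B.submatrix i id).det ≠ 0 := by
    by_contra hcon
    push Not at hcon
    rw [Finset.sum_eq_zero fun w _ => by rw [hcon w, mul_zero]] at hsum
    exact zero_ne_one hsum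
  have hsupp : ∀ i : Fin s → ι, (B.submatrix i id).det ≠ 0 → ∀ a, τ (i a) := by
    intro i hi a
    by_contra hcon
    exact hi (Matrix.det_eq_zero_of_row_eq_zero a fun c => hB0 _ hcon c)
  have hinj : ∀ i : Fin s → ι, (B.submatrix i id).det ≠ 0 → Function.Injective i := by
    intro i hi a a' haa
    by_contra hne
    exact hi (Matrix.det_zero_of_row_eq hne (by
      funext c
      rw [Matrix.submatrix_apply, Matrix.submatrix_apply, haa]))
  refine ⟨s, fun i => (B.submatrix i id).det, ?_, ?_, hsupp, ?_⟩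
  · obtain ⟨i, hi⟩ := hD0
    have h1 : Function.Injective (fun a : Fin s => (⟨i a, hsupp i hi a⟩ : {i // τ i})) := by
      intro a a' h
      exact hinj i hi (congrArg Subtype.val h)
    have h2 := Nat.card_le_card_of_injective _ h1
    rwa [Nat.card_eq_fintype_card, Fintype.card_fin] at h2
  · intro h
    obtain ⟨i, hi⟩ := hD0
    exact hi (congrFun h i)
  · intro g hg i
    have h1 := det_mul_submatrix g B i
    have h2 : g * B = B * (L * g * B) := by
      calc g * B = g * (P * B) := by rw [hPB]
        _ = P * g * B := by rw [← Matrix.mul_assoc, hg]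
        _ = B * (L * g * B) := by rw [hBL]; simp only [Matrix.mul_assoc]
    have h3 : (g * B).submatrix i id = B.submatrix i id * (L * g * B) := by
      rw [h2]
      ext a c
      rw [Matrix.submatrix_apply, Matrix.mul_apply, Matrix.mul_apply]
      rfl
    have h4 : (1 - P + g * P).det = (L * g * B).det := by
      have h5 : 1 - P + g * P = 1 + ((g - 1) * B) * L := by
        rw [hBL, Matrix.sub_mul, Matrix.sub_mul, Matrix.one_mul, Matrix.mul_assoc g B L]
        abel
      rw [h5, Matrix.det_one_add_mul_comm]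
      congr 1
      rw [Matrix.sub_mul, Matrix.one_mul, Matrix.mul_sub, hLB, ← Matrix.mul_assoc]
      abel
    rw [h1, h3, Matrix.det_mul, h4, mul_comm]

end Pool.Agent.V5helper58.ZL
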