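import Pool.Agent.V5helper90.ZL.Stm
import Pool.Agent.V5helper58.ZL.DT

/-!
# The zero-one law for all K3 surfaces: job DA, the determinant array
-/

set_option autoImplicit false

namespace Pool.Agent.V5helper58.ZL

open Matrix Pool.Agent.N996.BP Pool.Agent.N996.FP Pool.Agent.V5helper90.ZL
open Pool.Agent.V5helper89.KZ.KD (U mem_U QQ)

variable {ι : Type} [Fintype ι] [DecidableEq ι]

/-- The complex pure tensor of basis vectors. -/
noncomputable def ptc {μ : Type} [Fintype μ] (v : μ → ι) : (μ → ι) → ℂ := fun i =>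
  ∏ x, if i x = v x then (1 : ℂ) else 0

lemma kp_ptc {μ : Type} [Fintype μ] [DecidableEq μ] {v : μ → ι} {τ : ι → Prop}
    (hv : ∀ x, ¬ τ (v x)) {g : Matrix ι ι ℂ}
    (hg : ∀ i, ¬ τ i → g *ᵥ Pi.single i 1 = Pi.single i 1) : kp μ g *ᵥ ptc v = ptc v := by
  funext i
  rw [Matrix.mulVec, dotProduct, Finset.sum_eq_single v]
  · rw [kp_apply, ptc, ptc]
    simp only [if_true, Finset.prod_const_one, mul_one]
    refine Finset.prod_congr rfl fun x _ => ?_
    have h1 := congrFun (hg _ (hv x)) (i x)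
    rw [Matrix.mulVec_single_one, Matrix.col_apply, Pi.single_apply] at h1
    exact h1
  · intro w _ hw
    obtain ⟨x, hx⟩ := Function.ne_iff.1 hw
    rw [ptc, Finset.prod_eq_zero (Finset.mem_univ x), mul_zero]
    rw [if_neg hx]
  · intro h; exact absurd (Finset.mem_univ _) h

/-- Elements of the group commute with combinations of Hodge endomorphisms. -/
lemma comm_of_So {H : HData ι} {h : Matrix ι ι ℂ} (hh : h ∈ So H) {x : Matrix ι ι ℂ}
    (hx : x ∈ Submodule.span ℂ (cQ '' {x | IsHE H x})) : x * h = h * x := by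
  induction hx using Submodule.span_induction with
  | mem x hx =>
    obtain ⟨y, hy, rfl⟩ := hx
    exact (hy.comm_fix (hh (Unit ⊕ Unit))).symm
  | zero => rw [Matrix.zero_mul, Matrix.mul_zero]
  | add a b _ _ ha hb => rw [Matrix.add_mul, Matrix.mul_add, ha, hb]
  | smul c a _ ha => rw [Matrix.smul_mul, Matrix.mul_smul, ha]

/-- The determinant of an isometry on the image of a self-adjoint projector. -/
lemma det_sq_of_adj {Q P h : Matrix ι ι ℂ} (hQ : Q.det ≠ 0) (hP : P * P = P)
    (hadj : Pᵀ * Q = Q * P) (hh : hᵀ * Q * h = Q) (hc : P * h = h * P) :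
    (1 - P + h * P).det * (1 - P + h * P).det = 1 := by
  have hiso : (1 - P + h * P)ᵀ * Q * (1 - P + h * P) = Q := by
    have e1 : (1 - P + h * P)ᵀ * Q = Q * (1 - P) + hᵀ * Q * P := by
      have e2 : (h * P)ᵀ = hᵀ * Pᵀ := by rw [← hc, Matrix.transpose_mul]
      rw [Matrix.transpose_add, e2, Matrix.transpose_sub, Matrix.transpose_one, Matrix.add_mul,
        Matrix.sub_mul, Matrix.one_mul, hadj, Matrix.mul_assoc, hadj, Matrix.mul_sub,
        Matrix.mul_one, Matrix.mul_assoc]
    have e3 : (1 - P) * h = h * (1 - P) := by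
      rw [Matrix.sub_mul, Matrix.mul_sub, hc, Matrix.one_mul, Matrix.mul_one]
    have e4 : P * (1 - P) = 0 := by rw [Matrix.mul_sub, Matrix.mul_one, hP, sub_self]
    have e5 : (1 - P) * P = 0 := by rw [Matrix.sub_mul, Matrix.one_mul, hP, sub_self]
    have e6 : (1 - P) * (1 - P) = 1 - P := by
      rw [Matrix.sub_mul, Matrix.one_mul, e4, sub_zero]
    rw [e1]
    calc (Q * (1 - P) + hᵀ * Q * P) * (1 - P + h * P)
        = Q * ((1 - P) * (1 - P)) + Q * (((1 - P) * h) * P) + hᵀ * Q * (P * (1 - P)) +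
          hᵀ * Q * ((P * h) * P) := by noncomm_ring
      _ = Q * (1 - P) + Q * (h * ((1 - P) * P)) + 0 + (hᵀ * Q * h) * (P * P) := by
          rw [e6, e3, e4, hc]
          noncomm_ring
      _ = Q := by
          rw [e5, hh, hP]
          noncomm_ring
  have h1 := congrArg Matrix.det hiso
  rw [Matrix.det_mul, Matrix.det_mul, Matrix.det_transpose] at h1
  have h3 : Q.det * ((1 - P + h * P).det * (1 - P + h * P).det) = Q.det * 1 := by
    linear_combination h1
  exact mul_left_cancel₀ hQ h3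

/-- Arrays fixed by the group are combinations of Hodge classes. -/
lemma span_of_fix {H : HData ι} {κ : Type} [Fintype κ] [DecidableEq κ] {A : (κ → ι) → ℂ}
    (hA : ∀ g ∈ GG H, kp κ g *ᵥ A = A) :
    A ∈ Submodule.span ℂ (ca '' (BB H κ : Set ((κ → ι) → ℚ))) := by
  let C : Submodule ℂ ((κ → ι) → ℂ) :=
    { carrier := {a | ∀ g ∈ GG H, kp κ g *ᵥ a = a}
      add_mem' := by
        intro a b ha hb g hg
        rw [Matrix.mulVec_add, ha g hg, hb g hg]
      zero_mem' := by
        intro g _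
        rw [Matrix.mulVec_zero]
      smul_mem' := by
        intro c a ha g hg
        rw [Matrix.mulVec_smul, ha g hg] }
  have hC : ∀ (σ : ℂ ≃+* ℂ), ∀ v ∈ C, (fun i => σ (v i)) ∈ C := by
    intro σ v h1 g hg
    have e1 : (⇑σ ∘ ⇑σ.symm) = id := by ext; simp
    have h5 := h1 (g.map σ.symm) (GG_map H σ.symm hg)
    rw [kp_map'] at h5
    funext i
    have h6 := congrArg σ (congrFun h5 i)
    rw [Matrix.mulVec, dotProduct, map_sum] at h6
    rw [Matrix.mulVec, dotProduct]
    simpa only [map_mul, Matrix.map_apply, RingEquiv.apply_symm_apply] using h6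
  have hAC : A ∈ C := hA
  rw [Pool.Agent.W437.HD.span_rational C hC] at hAC
  refine Submodule.span_le.2 ?_ hAC
  rintro w ⟨hw, u, rfl⟩
  refine Submodule.subset_span ⟨u, ?_, rfl⟩
  intro t ht
  exact hw _ (Submonoid.subset_closure (l_mem_gens H ht))

theorem t_DA : S_DA := by
  intro ι _ _ H τ C _ _ P bar hb hal c hc
  have hP : P c * P c = P c := hb.idem c
  have hadj : (P c)ᵀ * cQ H.Qr = cQ H.Qr * P c := by
    have h := hb.adj c
    rwa [hc] at h
  have hrow : ∀ i, ¬ τ i → ∀ j, P c i j = 0 := by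
    intro i hi j
    have h1 := mem_U.1 (hb.stab c (Pi.single j 1)) i hi
    rwa [Matrix.mulVec_single_one, Matrix.col_apply] at h1
  obtain ⟨s, D, hs, hD0, hsupp, hact⟩ := t_DT ι (P c) τ hP hrow
  refine ⟨s, hs, ?_⟩
  intro μ _ _ v hv
  have hkp : ∀ g : Matrix ι ι ℂ, (∀ i, ¬ τ i → g *ᵥ Pi.single i 1 = Pi.single i 1) →
      P c * g = g * P c →
      kp (Fin s ⊕ μ) g *ᵥ tens D (ptc v) = (1 - P c + g * P c).det • tens D (ptc v) := by
    intro g hg1 hg2
    rw [kp_tens, kp_ptc hv hg1]
    have h1 : kp (Fin s) g *ᵥ D = (1 - P c + g * P c).det • D := by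
      funext i
      rw [Matrix.mulVec, dotProduct, Pi.smul_apply, smul_eq_mul, ← hact g hg2 i]
      rfl
    rw [h1]
    funext i
    rw [tens, Pi.smul_apply, Pi.smul_apply, tens, smul_eq_mul, smul_eq_mul, mul_assoc]
  refine ⟨tens D (ptc v), ?_, ?_, ?_, hkp⟩
  · intro h
    obtain ⟨i, hi⟩ := Function.ne_iff.1 hD0
    have h1 := congrFun h (Sum.elim i v)
    rw [tens_elim, ptc] at h1
    simp only [if_true, Finset.prod_const_one, mul_one] at h1
    exact hi h1
  · intro i hi
    rw [tens] at hi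
    refine ⟨fun a => hsupp _ (left_ne_zero_of_mul hi) a, fun x => ?_⟩
    by_contra hcon
    apply right_ne_zero_of_mul hi
    rw [ptc, Finset.prod_eq_zero (Finset.mem_univ x)]
    exact if_neg hcon
  · refine span_of_fix ?_
    have hQ : (cQ H.Qr).det ≠ 0 := by
      intro h0
      have h3 := congrArg Matrix.det (QQ (H := H))
      rw [Matrix.det_mul, h0, zero_mul, Matrix.det_one] at h3
      exact zero_ne_one h3
    intro g hg
    induction hg using Submonoid.closure_induction with
    | mem x hx =>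
      obtain ⟨σ, t, ht, rfl⟩ := hx
      obtain ⟨r, hr⟩ : ∃ r : ℂ, r ^ 2 = t := IsAlgClosed.exists_pow_nat_eq t two_pos
      have hr0 : r ≠ 0 := by rintro rfl; exact ht (by rw [← hr]; ring)
      have hmem : (H.l r).map σ ∈ So H :=
        GG_So (Submonoid.subset_closure ⟨σ, r, hr0, rfl⟩)
      have hcm : P c * (H.l r).map σ = (H.l r).map σ * P c := comm_of_So hmem (hb.comm c)
      have hiso : ((H.l r).map σ)ᵀ * cQ H.Qr * (H.l r).map σ = cQ H.Qr := by
        have h1 := congrArg (fun M => M.map σ) (H.l_Q hr0)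
        simp only [map_mul', cQ_map] at h1
        rw [← Matrix.transpose_map]
        exact h1
      have hdet := det_sq_of_adj hQ hP hadj hiso hcm
      have hsq : (H.l t).map σ = (H.l r).map σ * (H.l r).map σ := by
        rw [← map_mul', H.l_mul, ← hr, sq]
      rw [hsq, kp_mul, ← Matrix.mulVec_mulVec, hkp _ (hal _ hmem) hcm, Matrix.mulVec_smul,
        hkp _ (hal _ hmem) hcm, smul_smul, hdet, one_smul]
    | one => rw [kp_one, Matrix.one_mulVec]
    | mul x y _ _ hx hy => rw [kp_mul, ← Matrix.mulVec_mulVec, hy, hx]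

end Pool.Agent.V5helper58.ZL
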