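import Pool.Agent.V5helper58.ZL.DT

/-!
# The determinant of a projector, with the exact rank
-/

set_option autoImplicit false

namespace Pool.Agent.V5helper58.ZL

open Matrix Pool.Agent.V5helper90.ZL

lemma rank_of_factor {ι : Type} [Fintype ι] [DecidableEq ι] {P : Matrix ι ι ℂ} {s : ℕ}
    {B : Matrix ι (Fin s) ℂ} {L : Matrix (Fin s) ι ℂ} (hBL : P = B * L) (hLB : L * B = 1) :
    s = P.rank := by
  apply le_antisymm
  · have h1 : (1 : Matrix (Fin s) (Fin s) ℂ) = L * (P * B) := by
      rw [hBL, Matrix.mul_assoc B, hLB, Matrix.mul_one, hLB]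
    have h2 : (1 : Matrix (Fin s) (Fin s) ℂ).rank = s := by
      rw [Matrix.rank_one, Fintype.card_fin]
    have h3 : (L * (P * B)).rank ≤ (P * B).rank := Matrix.rank_mul_le_right _ _
    have h4 : (P * B).rank ≤ P.rank := Matrix.rank_mul_le_left _ _
    rw [← h1, h2] at h3
    exact h3.trans h4
  · have h3 : (B * L).rank ≤ L.rank := Matrix.rank_mul_le_right _ _
    have h4 : L.rank ≤ Fintype.card (Fin s) := Matrix.rank_le_card_height L
    rw [Fintype.card_fin] at h4
    rw [hBL]
    exact h3.trans h4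

/-- The alternating array of the image of a projector. -/
theorem dt_rank {ι : Type} [Fintype ι] [DecidableEq ι] (P : Matrix ι ι ℂ) (τ : ι → Prop)
    (hP : P * P = P) (hτ : ∀ i, ¬ τ i → ∀ j, P i j = 0) :
    ∃ (s : ℕ) (D : (Fin s → ι) → ℂ), s = P.rank ∧ s ≤ Nat.card {i // τ i} ∧ D ≠ 0 ∧
      (∀ i, D i ≠ 0 → ∀ a, τ (i a)) ∧
      ∀ g : Matrix ι ι ℂ, P * g = g * P → ∀ i : Fin s → ι,
        ∑ w : Fin s → ι, (∏ x, g (i x) (w x)) * D w = (1 - P + g * P).det * D i := by
  obtain ⟨s, B, L, hBL, hLB⟩ := exists_factor P hP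
  have hPB : P * B = B := by rw [hBL, Matrix.mul_assoc, hLB, Matrix.mul_one]
  have hB0 : ∀ i, ¬ τ i → ∀ c, B i c = 0 := by
    intro i hi c
    rw [← hPB, Matrix.mul_apply]
    exact Finset.sum_eq_zero fun j _ => by rw [hτ i hi j, zero_mul]
  have hsum : ∑ w : Fin s → ι, (∏ x, L x (w x)) * (B.submatrix w id).det = 1 := by
    have h := det_mul_submatrix L B id
    simpa [hLB] using h
  have hD0 : ∃ i : Fin s → ι, (B.submatrix i id).det ≠ 0 := by
    by_contra hcon
    push Not at hcon
    rw [Finset.sum_eq_zero fun w _ => by rw [hcon w, mul_zero]] at hsum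
    exact zero_ne_one hsum
  have hsupp : ∀ i : Fin s → ι, (B.submatrix i id).det ≠ 0 → ∀ a, τ (i a) := by
    intro i hi a
    by_contra hcon
    exact hi (Matrix.det_eq_zero_of_row_eq_zero a fun c => hB0 _ hcon c)
  have hinj : ∀ i : Fin s → ι, (B.submatrix i id).det ≠ 0 → Function.Injective i := by
    intro i hi a a' haa
    by_contra hne
    exact hi (Matrix.det_zero_of_row_eq hne (by
      funext c
      rw [Matrix.submatrix_apply, Matrix.submatrix_apply, haa]))
  refine ⟨s, fun i => (B.submatrix i id).det, rank_of_factor hBL hLB, ?_, ?_, hsupp, ?_⟩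
  · obtain ⟨i, hi⟩ := hD0
    have h1 : Function.Injective (fun a : Fin s => (⟨i a, hsupp i hi a⟩ : {i // τ i})) := by
      intro a a' h
      exact hinj i hi (congrArg Subtype.val h)
    have h2 := Nat.card_le_card_of_injective _ h1
    rwa [Nat.card_eq_fintype_card, Fintype.card_fin] at h2
  · intro h
    obtain ⟨i, hi⟩ := hD0
    exact hi (congrFun h i)
  · intro g hg i
    have h1 := det_mul_submatrix g B i
    have h2 : g * B = B * (L * g * B) := by
      calc g * B = g * (P * B) := by rw [hPB]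
        _ = P * g * B := by rw [← Matrix.mul_assoc, hg]
        _ = B * (L * g * B) := by rw [hBL]; simp only [Matrix.mul_assoc]
    have h3 : (g * B).submatrix i id = B.submatrix i id * (L * g * B) := by
      rw [h2]
      ext a c
      rw [Matrix.submatrix_apply, Matrix.mul_apply, Matrix.mul_apply]
      rfl
    have h4 : (1 - P + g * P).det = (L * g * B).det := by
      have h5 : 1 - P + g * P = 1 + ((g - 1) * B) * L := by
        rw [hBL, Matrix.sub_mul, Matrix.sub_mul, Matrix.one_mul, Matrix.mul_assoc g B L]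
        abel
      rw [h5, Matrix.det_one_add_mul_comm]
      congr 1
      rw [Matrix.sub_mul, Matrix.one_mul, Matrix.mul_sub, hLB, ← Matrix.mul_assoc]
      abel
    rw [h1, h3, Matrix.det_mul, h4, mul_comm]

end Pool.Agent.V5helper58.ZL
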