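import Pool.Agent.V5helper90.ZL.Stm2
import Pool.Agent.V5helper58.ZL.DA
import Pool.Agent.V5helper58.ZL.DTX

/-!
# The zero-one law for all K3 surfaces: job DAX, the determinant array with the exact rank
-/

set_option autoImplicit false

namespace Pool.Agent.V5helper58.ZL

open Matrix Pool.Agent.N996.BP Pool.Agent.N996.FP Pool.Agent.V5helper90.ZL
open Pool.Agent.V5helper89.KZ.KD (U mem_U QQ)

theorem t_DAX : S_DAX := by
  intro ι _ _ H τ C _ _ P bar hb hal c hc
  have hP : P c * P c = P c := hb.idem c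
  have hadj : (P c)ᵀ * cQ H.Qr = cQ H.Qr * P c := by
    have h := hb.adj c
    rwa [hc] at h
  have hrow : ∀ i, ¬ τ i → ∀ j, P c i j = 0 := by
    intro i hi j
    have h1 := mem_U.1 (hb.stab c (Pi.single j 1)) i hi
    rwa [Matrix.mulVec_single_one, Matrix.col_apply] at h1
  obtain ⟨s, D, rfl, hs, hD0, hsupp, hact⟩ := dt_rank (P c) τ hP hrow
  intro μ _ _ v hv
  have hkp : ∀ g : Matrix ι ι ℂ, (∀ i, ¬ τ i → g *ᵥ Pi.single i 1 = Pi.single i 1) →
      P c * g = g * P c →
      kp (Fin (P c).rank ⊕ μ) g *ᵥ tens D (ptc v) = (1 - P c + g * P c).det • tens D (ptc v) := by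
    intro g hg1 hg2
    rw [kp_tens, kp_ptc hv hg1]
    have h1 : kp (Fin (P c).rank) g *ᵥ D = (1 - P c + g * P c).det • D := by
      funext i
      rw [Matrix.mulVec, dotProduct, Pi.smul_apply, smul_eq_mul, ← hact g hg2 i]
      rfl
    rw [h1]
    funext i
    rw [tens, Pi.smul_apply, Pi.smul_apply, tens, smul_eq_mul, smul_eq_mul, mul_assoc]
  refine ⟨tens D (ptc v), ?_, ?_, ?_, hkp⟩
  · intro h
    obtain ⟨i, hi⟩ := Function.ne_iff.1 hD0
    have h1 := congrFun h (Sum.elim i v)
    rw [tens_elim, ptc] at h1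
    simp only [if_true, Finset.prod_const_one, mul_one] at h1
    exact hi h1
  · intro i hi
    rw [tens] at hi
    refine ⟨fun a => hsupp _ (left_ne_zero_of_mul hi) a, fun x => ?_⟩
    by_contra hcon
    apply right_ne_zero_of_mul hi
    rw [ptc, Finset.prod_eq_zero (Finset.mem_univ x)]
    exact if_neg hcon
  · refine span_of_fix ?_
    have hQ : (cQ H.Qr).det ≠ 0 := by
      intro h0
      have h3 := congrArg Matrix.det (QQ (H := H))
      rw [Matrix.det_mul, h0, zero_mul, Matrix.det_one] at h3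
      exact zero_ne_one h3
    intro g hg
    induction hg using Submonoid.closure_induction with
    | mem x hx =>
      obtain ⟨σ, t, ht, rfl⟩ := hx
      obtain ⟨r, hr⟩ : ∃ r : ℂ, r ^ 2 = t := IsAlgClosed.exists_pow_nat_eq t two_pos
      have hr0 : r ≠ 0 := by rintro rfl; exact ht (by rw [← hr]; ring)
      have hmem : (H.l r).map σ ∈ So H :=
        GG_So (Submonoid.subset_closure ⟨σ, r, hr0, rfl⟩)
      have hcm : P c * (H.l r).map σ = (H.l r).map σ * P c := comm_of_So hmem (hb.comm c)
      have hiso : ((H.l r).map σ)ᵀ * cQ H.Qr * (H.l r).map σ = cQ H.Qr := by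
        have h1 := congrArg (fun M => M.map σ) (H.l_Q hr0)
        simp only [map_mul', cQ_map] at h1
        rw [← Matrix.transpose_map]
        exact h1
      have hdet := det_sq_of_adj hQ hP hadj hiso hcm
      have hsq : (H.l t).map σ = (H.l r).map σ * (H.l r).map σ := by
        rw [← map_mul', H.l_mul, ← hr, sq]
      rw [hsq, kp_mul, ← Matrix.mulVec_mulVec, hkp _ (hal _ hmem) hcm, Matrix.mulVec_smul,
        hkp _ (hal _ hmem) hcm, smul_smul, hdet, one_smul]
    | one => rw [kp_one, Matrix.one_mulVec]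
    | mul x y _ _ hx hy => rw [kp_mul, ← Matrix.mulVec_mulVec, hy, hx]

end Pool.Agent.V5helper58.ZL
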